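import Pool.Agent.H429R5.GS.F

/-!
# Moments of the zeta function and the failures of Gram's law

For a complex number `ω` of modulus one the `ω`-Gram points are the real `g` at which the factor
`X(s)` of the functional equation `ζ(s) = X(s) ζ(1 - s)` satisfies `X(1/2 + i g) = ω ^ 2`; there
`conj ω * ζ(1/2 + i g)` is real (`ω = 1`: the classical Gram points, Gram's law being the statement
that this real number is positive).  We compare, for every real exponent `p > 0`, the moment of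
`|ζ|^p` on the critical line with the sum of `|ζ|^p` over those Gram points at which Gram's law
fails.
-/

open Complex

namespace Pool.Agent.Results.MP_973905_nt.GramMoments

/-- The real number `g` is an `ω`-Gram point: with `Γ_ℝ(s) = π ^ (-s/2) Γ(s/2)`, the factor
`X(s) = Γ_ℝ(1 - s) / Γ_ℝ(s)` of the functional equation takes the value `ω ^ 2` at `1/2 + i g`. -/
def GramPoint (ω : ℂ) (g : ℝ) : Prop :=
  Gammaℝ (1 / 2 - g * I) = ω ^ 2 * Gammaℝ (1 / 2 + g * I)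

/-- the `ω`-Gram points in `[0, T]` -/
def gramPoints (ω : ℂ) (T : ℝ) : Set ℝ := {g | 0 ≤ g ∧ g ≤ T ∧ GramPoint ω g}

/-- the `ω`-Gram points in `[0, T]` at which `conj ω * ζ` is negative (Gram's law fails) -/
def badGramPoints (ω : ℂ) (T : ℝ) : Set ℝ :=
  {g | 0 ≤ g ∧ g ≤ T ∧ GramPoint ω g ∧
    ((starRingEnd ℂ) ω * riemannZeta (1 / 2 + g * I)).re < 0}

theorem gram_iff {ω : ℂ} {g : ℝ} :
    GramPoint ω g ↔ H429.MG.X1 ⟨1 / 2, g⟩ = ω ^ 2 := by
  have h1 : (⟨1 / 2, g⟩ : ℂ) = 1 / 2 + g * I := by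
    apply Complex.ext <;> simp
  have h2 : (1 : ℂ) - (1 / 2 + g * I) = 1 / 2 - g * I := by ring
  have heven : (1 : DirichletCharacter ℂ 1).Even := by
    unfold DirichletCharacter.Even
    exact MulChar.one_apply (isUnit_of_subsingleton _)
  have haa : H370.DL.aa (1 : DirichletCharacter ℂ 1) = 0 := by
    unfold H370.DL.aa
    rw [if_pos heven]
  unfold GramPoint H429.MG.X1 H370.DL.XX
  rw [h1, h2, haa, add_zero, add_zero, DirichletCharacter.rootNumber_modOne]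
  have hne : Gammaℝ (1 / 2 + g * I) ≠ 0 := by
    apply Gammaℝ_ne_zero_of_re_pos
    simp
  rw [div_eq_iff hne]
  simp

theorem LL_eq (y : ℝ) : H429.MG.LL ⟨1 / 2, y⟩ = riemannZeta (1 / 2 + y * I) := by
  have h1 : (⟨1 / 2, y⟩ : ℂ) = 1 / 2 + y * I := by
    apply Complex.ext <;> simp
  unfold H429.MG.LL
  rw [DirichletCharacter.LFunction_modOne_eq, h1]

theorem V_eq (y : ℝ) : H429.MG.V y = ‖riemannZeta (1 / 2 + y * I)‖ := by
  unfold H429.MG.V
  rw [LL_eq]

theorem finite_gramPoints {ω : ℂ} (hω : ‖ω‖ = 1) (T : ℝ) : (gramPoints ω T).Finite := by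
  refine (H429.MG.finite_gram hω 0 T).subset ?_
  rintro g ⟨h0, h1, h2⟩
  exact ⟨h0, h1, gram_iff.mp h2⟩

theorem finite_bad {ω : ℂ} (hω : ‖ω‖ = 1) (T : ℝ) : (badGramPoints ω T).Finite := by
  refine (finite_gramPoints hω T).subset ?_
  rintro g ⟨h0, h1, h2, -⟩
  exact ⟨h0, h1, h2⟩

theorem bad_subset {ω : ℂ} (T : ℝ) : badGramPoints ω T ⊆ gramPoints ω T := by
  rintro g ⟨h0, h1, h2, -⟩
  exact ⟨h0, h1, h2⟩

theorem part_a {ω : ℂ} (hω : ‖ω‖ = 1) {p : ℝ} (hp : 0 < p) : ∃ C : ℝ, 0 < C ∧ ∀ T : ℝ, 2 ≤ T →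
    ∫ t in (0 : ℝ)..T, ‖riemannZeta (1 / 2 + t * I)‖ ^ p ≤
      C * (Real.log T ^ p * T + Real.log T ^ (p + 1 / 2) *
        ∑ᶠ g ∈ badGramPoints ω (2 * T), ‖riemannZeta (1 / 2 + g * I)‖ ^ p) := by
  obtain ⟨C, hC, h⟩ := H429.GS.main_a2 hp hω
  refine ⟨C, hC, ?_⟩
  intro T hT
  have h1 := h T hT (finite_bad hω (2 * T)).toFinset (by
    intro g h0 h1 h2 h3
    rw [Set.Finite.mem_toFinset]
    refine ⟨h0, h1, gram_iff.mpr h2, ?_⟩
    rw [← LL_eq]
    exact h3)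
  simp only [V_eq] at h1
  rw [finsum_mem_eq_finite_toFinset_sum _ (finite_bad hω (2 * T))]
  exact h1

theorem part_b {ω : ℂ} (hω : ‖ω‖ = 1) {p : ℝ} (hp : 0 < p) : ∃ C : ℝ, 0 < C ∧ ∀ T : ℝ, 2 ≤ T →
    ∑ᶠ g ∈ gramPoints ω T, ‖riemannZeta (1 / 2 + g * I)‖ ^ p ≤
      C * (Real.log T * T + Real.log T ^ 3 *
        ∫ t in (0 : ℝ)..(2 * T), ‖riemannZeta (1 / 2 + t * I)‖ ^ p) := by
  obtain ⟨C, hC, h⟩ := H429.MG.main_b hp hω
  refine ⟨C, hC, ?_⟩
  intro T hT
  have h1 := h T hT (finite_gramPoints hω T).toFinset (by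
    intro g hg
    rw [Set.Finite.mem_toFinset] at hg
    exact ⟨hg.1, hg.2.1, gram_iff.mp hg.2.2⟩)
  simp only [V_eq] at h1
  rw [finsum_mem_eq_finite_toFinset_sum _ (finite_gramPoints hω T)]
  exact h1

theorem bad_le {ω : ℂ} (hω : ‖ω‖ = 1) {p : ℝ} (T : ℝ) :
    ∑ᶠ g ∈ badGramPoints ω T, ‖riemannZeta (1 / 2 + g * I)‖ ^ p ≤
      ∑ᶠ g ∈ gramPoints ω T, ‖riemannZeta (1 / 2 + g * I)‖ ^ p := by
  rw [finsum_mem_eq_finite_toFinset_sum _ (finite_gramPoints hω T),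
    finsum_mem_eq_finite_toFinset_sum _ (finite_bad hω T)]
  apply Finset.sum_le_sum_of_subset_of_nonneg
  · intro g hg
    rw [Set.Finite.mem_toFinset] at hg ⊢
    exact bad_subset T hg
  · intro g _ _
    exact Real.rpow_nonneg (norm_nonneg _) _

theorem rpow_aux {x A : ℝ} (hx : 1 / 2 ≤ x) : x ^ A ≤ 2 ^ |A| * (2 * x) ^ |A| := by
  have hx0 : 0 < x := by linarith
  have h2x : 1 ≤ 2 * x := by linarith
  have h1 : (1 : ℝ) ≤ 2 ^ |A| := Real.one_le_rpow (by norm_num) (abs_nonneg _)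
  have h2 : 1 ≤ (2 * x) ^ |A| := Real.one_le_rpow h2x (abs_nonneg _)
  rcases le_total 0 A with hA | hA
  · rw [abs_of_nonneg hA] at h1 h2 ⊢
    have h3 : x ^ A ≤ (2 * x) ^ A := Real.rpow_le_rpow hx0.le (by linarith) hA
    nlinarith
  · rw [abs_of_nonpos hA] at h1 h2 ⊢
    have h3 : x ^ A ≤ 2 ^ (-A) := by
      have h4 : x ^ A = (1 / x) ^ (-A) := by
        rw [one_div, Real.inv_rpow hx0.le, Real.rpow_neg hx0.le, inv_inv]
      rw [h4]
      apply Real.rpow_le_rpow (by positivity) _ (by linarith)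
      rw [div_le_iff₀ hx0]
      linarith
    nlinarith

theorem double_aux {f : ℝ → ℝ} {A B : ℝ}
    (h : ∀ T : ℝ, 2 ≤ T → f T ≤ B * (T * Real.log T ^ A)) {T : ℝ} (hT : 2 ≤ T) :
    f (2 * T) ≤ |B| * 2 * 2 ^ |A| * 2 ^ |A| * (T * (2 * Real.log T) ^ |A|) := by
  have hlog2 : (1 / 2 : ℝ) ≤ Real.log 2 := by linarith [Real.log_two_gt_d9]
  have hlogT : Real.log 2 ≤ Real.log T := Real.log_le_log (by norm_num) hT
  have hL2 : Real.log (2 * T) ≤ 2 * Real.log T := by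
    rw [Real.log_mul (by norm_num) (by linarith)]
    linarith
  have hL2' : 1 / 2 ≤ Real.log (2 * T) := by
    rw [Real.log_mul (by norm_num) (by linarith)]
    linarith
  have h1 := h (2 * T) (by linarith)
  have h2 := rpow_aux (A := A) hL2'
  have h3 : (2 * Real.log (2 * T)) ^ |A| ≤ 2 ^ |A| * (2 * Real.log T) ^ |A| := by
    rw [← Real.mul_rpow (by norm_num) (by linarith)]
    exact Real.rpow_le_rpow (by linarith) (by linarith) (abs_nonneg _)
  have h4 : 0 ≤ Real.log (2 * T) ^ A := Real.rpow_nonneg (by linarith) _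
  have hB : B ≤ |B| := le_abs_self B
  have hB0 : 0 ≤ |B| := abs_nonneg B
  have h2p : (0 : ℝ) ≤ 2 ^ |A| := by positivity
  have h5 : 0 ≤ 2 * T * Real.log (2 * T) ^ A := by
    have : 0 ≤ T := by linarith
    positivity
  calc f (2 * T) ≤ B * (2 * T * Real.log (2 * T) ^ A) := h1
    _ ≤ |B| * (2 * T * Real.log (2 * T) ^ A) := mul_le_mul_of_nonneg_right hB h5
    _ ≤ |B| * (2 * T * (2 ^ |A| * (2 ^ |A| * (2 * Real.log T) ^ |A|))) := by
      apply mul_le_mul_of_nonneg_left _ hB0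
      apply mul_le_mul_of_nonneg_left _ (by linarith)
      refine h2.trans ?_
      exact mul_le_mul_of_nonneg_left h3 h2p
    _ = _ := by ring

theorem result (ω : ℂ) (hω : ‖ω‖ = 1) (p : ℝ) (hp : 0 < p) :
    (∀ T : ℝ, (gramPoints ω T).Finite) ∧
    (∃ C : ℝ, 0 < C ∧ ∀ T : ℝ, 2 ≤ T →
      ∫ t in (0 : ℝ)..T, ‖riemannZeta (1 / 2 + t * I)‖ ^ p ≤
        C * (Real.log T ^ p * T + Real.log T ^ (p + 1 / 2) *
          ∑ᶠ g ∈ badGramPoints ω (2 * T), ‖riemannZeta (1 / 2 + g * I)‖ ^ p)) ∧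
    (∃ C : ℝ, 0 < C ∧ ∀ T : ℝ, 2 ≤ T →
      ∑ᶠ g ∈ gramPoints ω T, ‖riemannZeta (1 / 2 + g * I)‖ ^ p ≤
        C * (Real.log T * T + Real.log T ^ 3 *
          ∫ t in (0 : ℝ)..(2 * T), ‖riemannZeta (1 / 2 + t * I)‖ ^ p)) ∧
    ((∃ A B : ℝ, ∀ T : ℝ, 2 ≤ T →
        ∫ t in (0 : ℝ)..T, ‖riemannZeta (1 / 2 + t * I)‖ ^ p ≤ B * (T * Real.log T ^ A)) ↔
      (∃ A B : ℝ, ∀ T : ℝ, 2 ≤ T →
        ∑ᶠ g ∈ badGramPoints ω T, ‖riemannZeta (1 / 2 + g * I)‖ ^ p ≤
          B * (T * Real.log T ^ A))) := by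
  obtain ⟨Ca, hCa, ha⟩ := part_a hω hp
  obtain ⟨Cb, hCb, hb⟩ := part_b hω hp
  refine ⟨finite_gramPoints hω, ⟨Ca, hCa, ha⟩, ⟨Cb, hCb, hb⟩, ?_, ?_⟩
  · rintro ⟨A, B, h⟩
    refine ⟨|A| + 3, Cb * (1 + |B| * 2 * 2 ^ |A| * 2 ^ |A|) * 2 ^ (|A| + 3), ?_⟩
    intro T hT
    have hlog2 : (1 / 2 : ℝ) ≤ Real.log 2 := by linarith [Real.log_two_gt_d9]
    have hlogT : Real.log 2 ≤ Real.log T := Real.log_le_log (by norm_num) hT
    have hT0 : 0 ≤ T := by linarith
    have hd := double_aux (f := fun T => ∫ t in (0 : ℝ)..T, ‖riemannZeta (1 / 2 + t * I)‖ ^ p) h hT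
    set D : ℝ := |B| * 2 * 2 ^ |A| * 2 ^ |A| with hD
    have hD0 : 0 ≤ D := by positivity
    set M : ℝ := 2 * Real.log T with hM
    have hM1 : 1 ≤ M := by linarith
    have hM0 : 0 < M := by linarith
    have hE : M ^ (|A| + 3) = M ^ 3 * M ^ |A| := by
      rw [Real.rpow_add hM0, mul_comm]
      congr 1
      exact_mod_cast Real.rpow_natCast M 3
    have hMA : 1 ≤ M ^ |A| := Real.one_le_rpow hM1 (abs_nonneg _)
    have hM3 : 1 ≤ M ^ 3 := one_le_pow₀ hM1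
    have hMM : M ≤ M ^ 3 := le_self_pow₀ hM1 (by norm_num)
    calc ∑ᶠ g ∈ badGramPoints ω T, ‖riemannZeta (1 / 2 + g * I)‖ ^ p
        ≤ ∑ᶠ g ∈ gramPoints ω T, ‖riemannZeta (1 / 2 + g * I)‖ ^ p := bad_le hω T
      _ ≤ Cb * (Real.log T * T + Real.log T ^ 3 *
            ∫ t in (0 : ℝ)..(2 * T), ‖riemannZeta (1 / 2 + t * I)‖ ^ p) := hb T hT
      _ ≤ Cb * (M * T + M ^ 3 * (D * (T * M ^ |A|))) := by
          apply mul_le_mul_of_nonneg_left _ hCb.le
          have e1 : Real.log T * T ≤ M * T := mul_le_mul_of_nonneg_right (by linarith) hT0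
          have e2 : Real.log T ^ 3 ≤ M ^ 3 := by
            apply pow_le_pow_left₀ (by linarith)
            linarith
          have e3 : 0 ≤ D * (T * M ^ |A|) := by positivity
          have e4 : Real.log T ^ 3 *
            ∫ t in (0 : ℝ)..(2 * T), ‖riemannZeta (1 / 2 + t * I)‖ ^ p ≤
              M ^ 3 * (D * (T * M ^ |A|)) := by
            have e5 : 0 ≤ Real.log T ^ 3 := by
              have : 0 ≤ Real.log T := by linarith
              positivity
            calc _ ≤ Real.log T ^ 3 * (D * (T * M ^ |A|)) := mul_le_mul_of_nonneg_left hd e5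
              _ ≤ _ := mul_le_mul_of_nonneg_right e2 e3
          linarith
      _ ≤ Cb * ((1 + D) * (T * (M ^ 3 * M ^ |A|))) := by
          apply mul_le_mul_of_nonneg_left _ hCb.le
          have e1 : M * T ≤ T * (M ^ 3 * M ^ |A|) := by
            have : M * 1 ≤ M ^ 3 * M ^ |A| := mul_le_mul hMM hMA (by norm_num) (by positivity)
            nlinarith
          nlinarith
      _ = Cb * (1 + D) * 2 ^ (|A| + 3) * (T * Real.log T ^ (|A| + 3)) := by
          rw [← hE, hM, Real.mul_rpow (by norm_num) (by linarith)]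
          ring
  · rintro ⟨A, B, h⟩
    refine ⟨3 * p + 1 / 2 + |A|, Ca * (1 + |B| * 2 * 2 ^ |A| * 2 ^ |A|) *
      2 ^ (3 * p + 1 / 2 + |A|), ?_⟩
    intro T hT
    have hlog2 : (1 / 2 : ℝ) ≤ Real.log 2 := by linarith [Real.log_two_gt_d9]
    have hlogT : Real.log 2 ≤ Real.log T := Real.log_le_log (by norm_num) hT
    have hT0 : 0 ≤ T := by linarith
    have hd := double_aux (f := fun T => ∑ᶠ g ∈ badGramPoints ω T,
      ‖riemannZeta (1 / 2 + g * I)‖ ^ p) h hT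
    set D : ℝ := |B| * 2 * 2 ^ |A| * 2 ^ |A| with hD
    have hD0 : 0 ≤ D := by positivity
    set M : ℝ := 2 * Real.log T with hM
    have hM1 : 1 ≤ M := by linarith
    have hM0 : 0 < M := by linarith
    have hlT0 : 0 ≤ Real.log T := by linarith
    have hlM : Real.log T ≤ M := by linarith
    have hA0 := abs_nonneg A
    set E : ℝ := 3 * p + 1 / 2 + |A| with hE
    have m1 : Real.log T ^ p ≤ M ^ E :=
      (Real.rpow_le_rpow hlT0 hlM hp.le).trans
        (Real.rpow_le_rpow_of_exponent_le hM1 (by linarith))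
    have m2 : Real.log T ^ (p + 1 / 2) * M ^ |A| ≤ M ^ E := by
      calc Real.log T ^ (p + 1 / 2) * M ^ |A| ≤ M ^ (p + 1 / 2) * M ^ |A| := by
            apply mul_le_mul_of_nonneg_right _ (by positivity)
            exact Real.rpow_le_rpow hlT0 hlM (by positivity)
        _ = M ^ (p + 1 / 2 + |A|) := (Real.rpow_add hM0 _ _).symm
        _ ≤ M ^ E := Real.rpow_le_rpow_of_exponent_le hM1 (by linarith)
    calc ∫ t in (0 : ℝ)..T, ‖riemannZeta (1 / 2 + t * I)‖ ^ p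
        ≤ Ca * (Real.log T ^ p * T + Real.log T ^ (p + 1 / 2) *
          ∑ᶠ g ∈ badGramPoints ω (2 * T), ‖riemannZeta (1 / 2 + g * I)‖ ^ p) := ha T hT
      _ ≤ Ca * (M ^ E * T + M ^ E * (D * T)) := by
          apply mul_le_mul_of_nonneg_left _ hCa.le
          have e1 : Real.log T ^ p * T ≤ M ^ E * T := mul_le_mul_of_nonneg_right m1 hT0
          have e0 : 0 ≤ Real.log T ^ (p + 1 / 2) := Real.rpow_nonneg hlT0 _
          have e2 : Real.log T ^ (p + 1 / 2) *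
              ∑ᶠ g ∈ badGramPoints ω (2 * T), ‖riemannZeta (1 / 2 + g * I)‖ ^ p ≤
              M ^ E * (D * T) := by
            calc _ ≤ Real.log T ^ (p + 1 / 2) * (D * (T * M ^ |A|)) :=
                  mul_le_mul_of_nonneg_left hd e0
              _ = (Real.log T ^ (p + 1 / 2) * M ^ |A|) * (D * T) := by ring
              _ ≤ M ^ E * (D * T) := mul_le_mul_of_nonneg_right m2 (by positivity)
          linarith
      _ = Ca * (1 + D) * 2 ^ E * (T * Real.log T ^ E) := by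
          rw [hM, Real.mul_rpow (by norm_num) hlT0]
          ring

end Pool.Agent.Results.MP_973905_nt.GramMoments
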