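import Pool.Agent.H295R2.LM.Nat
import Pool.Agent.H306R2.X379ConstA

set_option autoImplicit false

/-!
Explicit unconditional lower bounds for the moments of half-integral order `k = n / 2`, `n ≥ 3`
odd, of zeta on the critical line in all intervals `[T, T + U]`, `U ≥ (log T) ^ A`.
-/

open Filter

theorem Pool.Agent.Results.MP_973905_nt.ShortHalfIntegers.result (n : ℕ) (hn : Odd n)
    (h3 : 3 ≤ n) :
    ∃ A : ℝ, 0 < A ∧ ∀ᶠ T : ℝ in atTop, ∀ U : ℝ, Real.log T ^ A ≤ U →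
      7 / 10 * (∏' p : Nat.Primes, ((1 - 1 / (p : ℝ)) ^ ((n : ℝ) ^ 2 / 4) *
          ∑' m : ℕ, (∏ i ∈ Finset.range m, ((n : ℝ) / 2 + i) / ((i : ℝ) + 1)) ^ 2 *
            (1 / (p : ℝ)) ^ m)) / Real.Gamma ((n : ℝ) ^ 2 / 4 + 1) *
        Real.log U ^ ((n : ℝ) ^ 2 / 4) ≤
      1 / U * ∫ t in T..(T + U), ‖riemannZeta (1 / 2 + t * Complex.I)‖ ^ n := by
  obtain ⟨N, j, q, β, hadm, hc⟩ := Pool.Agent.H306R2.X379ConstA.constA n hn h3
  have hk0 : (0:ℝ) < n := by exact_mod_cast (by omega : 0 < n)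
  have haF : 0 < Pool.Agent.H306R2.aF ((n : ℝ) / 2) := Pool.Agent.H306R2.aF_pos (by positivity)
  have e : Pool.Agent.H306R2.aF ((n : ℝ) / 2) =
      ∏' p : Nat.Primes, ((1 - 1 / (p : ℝ)) ^ ((n : ℝ) ^ 2 / 4) *
          ∑' m : ℕ, (∏ i ∈ Finset.range m, ((n : ℝ) / 2 + i) / ((i : ℝ) + 1)) ^ 2 *
            (1 / (p : ℝ)) ^ m) := by
    unfold Pool.Agent.H306R2.aF Pool.Agent.H306R2.lc
    rw [show ((n : ℝ) / 2) ^ 2 = (n : ℝ) ^ 2 / 4 by ring]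
  rw [← e]
  obtain ⟨A, hA0, h⟩ := H295LM.masterXnat n j (by omega) q β hadm
    (7 / 10 * Pool.Agent.H306R2.aF ((n : ℝ) / 2) / Real.Gamma ((n : ℝ) ^ 2 / 4 + 1)) (by
    calc 7 / 10 * Pool.Agent.H306R2.aF ((n : ℝ) / 2) / Real.Gamma ((n : ℝ) ^ 2 / 4 + 1)
        = Pool.Agent.H306R2.aF ((n : ℝ) / 2) * ((7 / 10) / Real.Gamma ((n : ℝ) ^ 2 / 4 + 1)) := by
          ring
      _ < _ := by gcongr)
  refine ⟨A, hA0, ?_⟩
  filter_upwards [h, Real.tendsto_log_atTop.eventually_gt_atTop 0] with T hT hT0 U hU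
  have hU0 : 0 < U := lt_of_lt_of_le (Real.rpow_pos_of_pos hT0 _) hU
  have h1 := hT U hU
  rw [one_div U, ← div_eq_inv_mul, le_div_iff₀ hU0]
  refine le_trans (le_of_eq ?_) h1
  ring
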